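import Pool.Agent.H70.EH.Targets
import Pool.Agent.H36.NB.STE

/-!
Module STR (MP_0f8dca_lc): one step of the walk, relative version.
-/

set_option autoImplicit false

namespace Pool.Agent.H4.EH

open Finset Pool.Agent.H6.NB Pool.Agent.H70.EH

theorem STR.mle_mn {V : Type} [Fintype V] [DecidableEq V] (F : (V → Bool) → ℝ) :
    mle F (fun _ => 0) = mn F := by
  unfold mle mn
  rw [Finset.sum_div]
  refine Finset.sum_congr rfl fun y _ => ?_
  have : ∏ v : V, (1 + sg (y v) * 0) / 2 = 1 / 2 ^ Fintype.card V := by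
    rw [Finset.prod_congr rfl fun v _ => (by rw [mul_zero, add_zero] :
      (1 + sg (y v) * 0) / 2 = (1 : ℝ) / 2), Finset.prod_const, Finset.card_univ, one_div_pow]
  rw [this]
  ring

theorem str (h1 : Pool.Agent.H6.NB.T_FOU) (h2 : Pool.Agent.H6.NB.T_RST)
    (h3 : Pool.Agent.H6.NB.T_DIR) : T_STR := by
  intro q F Λ τ δ W hL hF hW hδ hx
  obtain ⟨c, hc0, hc1, hc⟩ := h2 (VV q) W hW
  have hs : (0 : ℝ) < √(2 ^ q) := Real.sqrt_pos.2 (by positivity)
  set s : ℝ := √(2 ^ q) with hsd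
  set X : ℝ := (4 * δ * (2 ^ q * s)) ^ 3 with hX
  have hW0 : mle F W = ∑ ρ, c ρ * mn (rst ρ F) := by
    have h4 := hc F (fun _ => 0)
    simp only [add_zero, mul_zero] at h4
    rw [h4]
    exact Finset.sum_congr rfl fun ρ _ => by rw [STR.mle_mn]
  have hE : (∑ r : (Fin q → Bool) → Bool, mle F (fun v => W v + δ * dir q r v)) / 2 ^ 2 ^ q =
      ∑ ρ, c ρ * ((∑ r : (Fin q → Bool) → Bool,
        mle (rst ρ F) (fun v => 2 * (δ * dir q r v))) / 2 ^ 2 ^ q) := by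
    have h4 : ∀ r : (Fin q → Bool) → Bool, mle F (fun v => W v + δ * dir q r v) =
        ∑ ρ, c ρ * mle (rst ρ F) (fun v => 2 * (δ * dir q r v)) :=
      fun r => hc F fun v => δ * dir q r v
    rw [Finset.sum_congr rfl fun r _ => h4 r, Finset.sum_comm, Finset.sum_div]
    refine Finset.sum_congr rfl fun ρ _ => ?_
    rw [← Finset.mul_sum, mul_div_assoc]
  have h5 : ∀ ρ : VV q → Option Bool,
      mn (rst ρ F) * (1 - 4 * δ ^ 2 * Λ / s) - (4 * δ ^ 2 * τ / s + X) ≤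
      (∑ r : (Fin q → Bool) → Bool, mle (rst ρ F) (fun v => 2 * (δ * dir q r v))) / 2 ^ 2 ^ q := by
    intro ρ
    have h6 := Pool.Agent.H36.NB.STE.step h1 h3 q (rst ρ F) (Λ * mn (rst ρ F) + τ) δ (hL ρ)
      (fun y => hF _) hδ hx
    rw [← hsd, ← hX, mul_zero, STR.mle_mn] at h6
    have h7 := (abs_le.1 h6).1
    have h8 : 4 * δ ^ 2 * (Λ * mn (rst ρ F) + τ) / s =
        mn (rst ρ F) * (4 * δ ^ 2 * Λ / s) + 4 * δ ^ 2 * τ / s := by ring
    rw [h8] at h7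
    linarith
  rw [hE, hW0]
  calc (∑ ρ, c ρ * mn (rst ρ F)) * (1 - 4 * δ ^ 2 * Λ / s) - 4 * δ ^ 2 * τ / s - X
      = ∑ ρ, c ρ * (mn (rst ρ F) * (1 - 4 * δ ^ 2 * Λ / s) - (4 * δ ^ 2 * τ / s + X)) := by
        rw [Finset.sum_congr rfl fun ρ _ => mul_sub (c ρ) _ _, Finset.sum_sub_distrib,
          ← Finset.sum_mul, hc1, Finset.sum_mul, one_mul]
        rw [Finset.sum_congr rfl fun ρ _ => (mul_assoc (c ρ) _ _)]
        ring
    _ ≤ _ := Finset.sum_le_sum fun ρ _ => mul_le_mul_of_nonneg_left (h5 ρ) (hc0 ρ)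

end Pool.Agent.H4.EH
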