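import Pool.Agent.H70.EH.Targets
import Pool.Agent.H48.NB.PHE

/-!
Module PHV (MP_0f8dca_lc): the expectation of the squared forrelation.
-/

set_option autoImplicit false

namespace Pool.Agent.H4.EH

open Finset Pool.Agent.H6.NB Pool.Agent.H70.EH Pool.Agent.H48.NB.PHE

theorem PHV.ok_anti (h1 : T_WLK) (q : ℕ) (δ : ℝ) (h5 : 0 ≤ δ) (h6 : δ * √(2 ^ q) ≤ 1 / 2) (n : ℕ) :
    (AA q δ)^[n + 1] (ok q) (fun _ => 0) ≤ (AA q δ)^[n] (ok q) (fun _ => 0) := by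
  have h := h1 q δ h5 h6
  rw [Function.iterate_succ_apply]
  exact h.2.1 n _ _ (fun W _ => AA_ok q δ W) _ (fun v => by simp)

theorem PHV.ok_ge (h1 : T_WLK) (q : ℕ) (δ : ℝ) (h5 : 0 ≤ δ) (h6 : δ * √(2 ^ q) ≤ 1 / 2) (N : ℕ)
    (h4 : 1 / 2 ≤ (AA q δ)^[N] (ok q) (fun _ => 0)) (n : ℕ) (hn : n ≤ N) :
    1 / 2 ≤ (AA q δ)^[n] (ok q) (fun _ => 0) := by
  have hA : Antitone (fun n => (AA q δ)^[n] (ok q) (fun _ => 0)) :=
    antitone_nat_of_succ_le (fun n => PHV.ok_anti h1 q δ h5 h6 n)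
  exact le_trans h4 (hA hn)

theorem PHV.g_step (h1 : T_WLK) (h2 : T_DIR) (q : ℕ) (δ : ℝ) (h5 : 0 ≤ δ)
    (h6 : δ * √(2 ^ q) ≤ 1 / 2) (n : ℕ) :
    (AA q δ)^[n + 1] (g q) (fun _ => 0) = (AA q δ)^[n] (g q) (fun _ => 0) +
      δ ^ 2 * (AA q δ)^[n] (ok q) (fun _ => 0) := by
  have h := h1 q δ h5 h6
  have h3 := h.2.2.1 n Bool (fun b => if b then 1 else δ ^ 2) (fun b => if b then g q else ok q)
    (fun _ => 0)
  have e : AA q δ (g q) = fun W => ∑ b : Bool, (if b then (1 : ℝ) else δ ^ 2) *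
      (if b then g q else ok q) W := by
    funext W
    rw [Fintype.sum_bool, AA_g h2]
    simp
  rw [Function.iterate_succ_apply, e, h3, Fintype.sum_bool]
  simp only [if_true, Bool.false_eq_true, if_false, one_mul]

theorem PHV.g_ge (h1 : T_WLK) (h2 : T_DIR) (q : ℕ) (δ : ℝ) (h5 : 0 ≤ δ)
    (h6 : δ * √(2 ^ q) ≤ 1 / 2) (N : ℕ)
    (h4 : 1 / 2 ≤ (AA q δ)^[N] (ok q) (fun _ => 0)) (n : ℕ) (hn : n ≤ N) :
    n * (δ ^ 2 / 2) ≤ (AA q δ)^[n] (g q) (fun _ => 0) := by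
  induction n with
  | zero => simp [g]
  | succ n ih =>
    rw [PHV.g_step h1 h2 q δ h5 h6]
    have h7 := ih (by omega)
    have h8 := PHV.ok_ge h1 q δ h5 h6 N h4 n (by omega)
    have h9 : δ ^ 2 * (1 / 2) ≤ δ ^ 2 * (AA q δ)^[n] (ok q) (fun _ => 0) :=
      mul_le_mul_of_nonneg_left h8 (by positivity)
    push_cast
    linarith

theorem PHV.first (h0 : T_WLM) (h1 : T_MUV) (h2 : T_CSV) (h3 : T_WLK) (h4 : T_DIR) (q : ℕ) :
    eps2 q / 2 ≤ ∑ p, mv true q p * phi q p := by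
  obtain ⟨w1, w2, w3, -⟩ := h0 q
  have e1 := (h1 true q).2.2 (phi q)
  simp only [if_true] at e1
  rw [e1, mle_phi]
  have h5 : 1 / 2 ≤ (AA q (dm q))^[Tm q] (ok q) (fun _ => 0) := h2 q
  refine le_trans (le_of_eq ?_) (PHV.g_ge h3 h4 q (dm q) w1 w3 (Tm q) h5 (Tm q) le_rfl)
  rw [← w2]
  ring

theorem phv (h0 : T_WLM) (h1 : T_MUV) (h2 : T_CSV) (h3 : Pool.Agent.H6.NB.T_WLK)
    (h4 : Pool.Agent.H6.NB.T_DIR) : T_PHV := by
  intro q
  obtain ⟨m0, m1, -⟩ := h1 true q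
  have hf := PHV.first h0 h1 h2 h3 h4 q
  set c : ℝ := ∑ p, mv true q p * phi q p with hc
  have he : 0 ≤ eps2 q := by unfold eps2; positivity
  have h5 : eps2 q ^ 2 / 4 ≤ c ^ 2 := by
    have h6 : (eps2 q / 2) ^ 2 ≤ c ^ 2 := pow_le_pow_left₀ (by positivity) hf 2
    have h7 : (eps2 q / 2) ^ 2 = eps2 q ^ 2 / 4 := by ring
    linarith
  have h8 : 0 ≤ ∑ p, mv true q p * (phi q p - c) ^ 2 :=
    Finset.sum_nonneg fun p _ => mul_nonneg (m0 p) (sq_nonneg _)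
  have h9 : ∑ p, mv true q p * (phi q p - c) ^ 2 =
      ∑ p, mv true q p * phi q p ^ 2 - c ^ 2 := by
    have h10 : ∀ p, mv true q p * (phi q p - c) ^ 2 = mv true q p * phi q p ^ 2 -
        2 * c * (mv true q p * phi q p) + c ^ 2 * mv true q p := fun p => by ring
    rw [Finset.sum_congr rfl fun p _ => h10 p, Finset.sum_add_distrib, Finset.sum_sub_distrib,
      ← Finset.mul_sum, ← Finset.mul_sum, m1, ← hc]
    ring
  rw [h9] at h8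
  linarith

end Pool.Agent.H4.EH
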