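import Pool.Agent.H70.EH.Targets

/-!
Module SLT (MP_0f8dca_lc): the slots.
-/

set_option autoImplicit false

namespace Pool.Agent.H4.EH

open Finset Pool.Agent.H6.NB Pool.Agent.H70.EH

theorem SLT.enc_inj : ∀ (n n' : ℕ) (x x' : List Bool),
    List.replicate n true ++ false :: x = List.replicate n' true ++ false :: x' →
    n = n' ∧ x = x' := by
  intro n
  induction n with
  | zero =>
    intro n' x x' h
    cases n' with
    | zero => simpa using h
    | succ n' => simp [List.replicate_succ] at h
  | succ n ih =>
    intro n' x x' h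
    cases n' with
    | zero => simp [List.replicate_succ] at h
    | succ n' =>
      simp only [List.replicate_succ, List.cons_append, List.cons.injEq, true_and] at h
      obtain ⟨h1, h2⟩ := ih n' x x' h
      exact ⟨by omega, h2⟩

theorem slt (h1 : Pool.Agent.H6.NB.T_COD) (h2 : Pool.Agent.H6.NB.T_FIS) : T_SLT := by
  intro V M e he
  have hlen : ∀ j, (sl V e j).length = 2 * (e j).2.length + 2 * (e j).1 + 16 * sc V e j ^ 2 + 2 := by
    intro j
    unfold sl slot
    rw [h1.2, List.length_replicate]
    rfl
  have hsc : ∀ j, (e j).2.length + (e j).1 + 20 ≤ sc V e j := by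
    intro j
    unfold sc scale
    omega
  have hup : ∀ j, (sl V e j).length < 16 * (sc V e j + 1) ^ 2 := by
    intro j
    rw [hlen]
    have := hsc j
    have h3 : 16 * (sc V e j + 1) ^ 2 = 16 * sc V e j ^ 2 + 32 * sc V e j + 16 := by ring
    omega
  have hlo : ∀ j, 16 * sc V e j ^ 2 ≤ (sl V e j).length := by
    intro j
    rw [hlen]
    omega
  have hinj : Function.Injective (sl V e) := by
    intro i j hij
    apply he
    unfold sl slot at hij
    obtain ⟨h3, h4, -⟩ := h1.1 _ _ _ _ _ _ hij
    have h5 := congrArg List.length h4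
    rw [List.length_replicate, List.length_replicate] at h5
    exact Prod.ext h5 h3
  have hmono : ∀ i j, (sl V e i).length ≤ (sl V e j).length → sc V e i ≤ sc V e j := by
    intro i j hij
    have h3 : 16 * sc V e i ^ 2 < 16 * (sc V e j + 1) ^ 2 :=
      ((hlo i).trans hij).trans_lt (hup j)
    have h4 : sc V e i ^ 2 < (sc V e j + 1) ^ 2 := by omega
    have h5 := lt_of_pow_lt_pow_left₀ 2 (Nat.zero_le _) h4
    omega
  refine ⟨hinj, fun j => ⟨by have := hsc j; omega, hlo j, (hup j).le⟩, hmono, ?_, ?_⟩
  · intro hM j
    obtain ⟨Ws, hW1, hW2⟩ := h2.1 (sc V e j - 19)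
    have h3 : (Finset.Iic j).card ≤ Ws.toFinset.card := by
      refine Finset.card_le_card_of_injOn
        (fun i => List.replicate (e i).1 true ++ false :: (e i).2) ?_ ?_
      · intro i hi
        rw [Finset.mem_coe, List.mem_toFinset]
        apply hW2
        rw [List.length_append, List.length_replicate, List.length_cons]
        have h4 := hmono i j (hM (Finset.mem_Iic.1 (Finset.mem_coe.1 hi)))
        have h5 := hsc i
        omega
      · intro i _ i' _ h4
        obtain ⟨h5, h6⟩ := SLT.enc_inj _ _ _ _ h4
        exact he (Prod.ext h5 h6)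
    rw [Fin.card_Iic] at h3
    have h4 := List.toFinset_card_le Ws
    have h5 : 2 ^ (sc V e j - 19 + 1) ≤ 2 ^ sc V e j :=
      Nat.pow_le_pow_right (by norm_num) (by have := hsc j; omega)
    omega
  · set L : ℕ := Finset.univ.sup fun j => (sl V e j).length with hL
    have hmaps : ∀ j ∈ (Finset.univ : Finset (Fin M)), (sl V e j).length ∈ Finset.range (L + 1) := by
      intro j hj
      rw [Finset.mem_range, Nat.lt_succ_iff]
      exact Finset.le_sup (f := fun j => (sl V e j).length) hj
    rw [← Finset.sum_fiberwise_of_maps_to hmaps]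
    have hf : ∀ l ∈ Finset.range (L + 1),
        ∑ j ∈ Finset.univ.filter (fun j : Fin M => (sl V e j).length = l),
          (1 / 4 : ℝ) ^ (sl V e j).length ≤ (1 / (2 : ℝ)) ^ l := by
      intro l _
      have e1 : ∑ j ∈ Finset.univ.filter (fun j : Fin M => (sl V e j).length = l),
          (1 / 4 : ℝ) ^ (sl V e j).length =
          ((Finset.univ.filter (fun j : Fin M => (sl V e j).length = l)).card : ℝ) *
            (1 / 4) ^ l := by
        rw [← nsmul_eq_mul, ← Finset.sum_const]
        refine Finset.sum_congr rfl fun s hs => ?_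
        rw [(Finset.mem_filter.1 hs).2]
      have e2 : (Finset.univ.filter (fun j : Fin M => (sl V e j).length = l)).card ≤ 2 ^ l := by
        rw [← Fintype.card_subtype]
        have e3 : Fintype.card (List.Vector Bool l) = 2 ^ l := by
          rw [card_vector]
          simp
        rw [← e3]
        refine Fintype.card_le_of_injective
          (fun x : {j : Fin M // (sl V e j).length = l} =>
            (⟨sl V e x.1, x.2⟩ : List.Vector Bool l)) ?_
        intro x y h
        exact Subtype.ext (hinj (congrArg (fun v => v.1) h))
      rw [e1]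
      calc ((Finset.univ.filter (fun j : Fin M => (sl V e j).length = l)).card : ℝ) *
            (1 / 4) ^ l ≤ (2 : ℝ) ^ l * (1 / 4) ^ l := by
            refine mul_le_mul_of_nonneg_right ?_ (by positivity)
            exact_mod_cast e2
        _ = (1 / 2 : ℝ) ^ l := by
            rw [← mul_pow]
            norm_num
    exact (Finset.sum_le_sum hf).trans (sum_geometric_two_le _)

end Pool.Agent.H4.EH
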